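import Pool.Agent.LE.StmtsQZ
import Pool.Agent.Helper49_LQF.KFT
import Pool.Agent.Helper93_LQZ.POI

/-! # IXI: the initial `Ξ` -/

set_option autoImplicit false

open MeasureTheory ProbabilityTheory Function Filter

open scoped ENNReal BigOperators Topology NNReal ComplexOrder Matrix

noncomputable section

namespace Pool.Agent.LE.QZ.H38

open Pool.Agent.Anderson hiding box mem_box card_box
open Pool.Agent.Loc Pool.Agent.Mob Pool.Agent.Helper54.Bal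
  Pool.Agent.Helper96.EXP Pool.Agent.BED
open Pool.Agent.LE.MN Pool.Agent.LE.CL Pool.Agent.LE.IR Pool.Agent.LE.QD Pool.Agent.LE.QF

variable {d M : ℕ} [NeZero M]

theorem ixi_ec0 (p : Tor d M) : ec p (0 : Tor d M) = 1 := by
  unfold ec
  apply Finset.prod_eq_one
  intro i _
  rw [Pi.zero_apply, mul_zero, AddChar.map_zero_eq_one]

theorem ixi_inv_im (a : ℝ) (z : ℂ) :
    (((a : ℂ) - z)⁻¹).im = z.im * ((a - z.re) ^ 2 + z.im ^ 2)⁻¹ := by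
  rw [Complex.inv_im, Complex.normSq_apply]
  simp only [Complex.sub_re, Complex.sub_im, Complex.ofReal_re, Complex.ofReal_im, zero_sub,
    neg_neg, div_eq_mul_inv]
  congr 2
  ring

theorem ixi_inv_norm (a : ℝ) (z : ℂ) :
    ‖((a : ℂ) - z)⁻¹‖ ^ 2 = ((a - z.re) ^ 2 + z.im ^ 2)⁻¹ := by
  rw [norm_inv, inv_pow, ← Complex.normSq_eq_norm_sq, Complex.normSq_apply]
  simp only [Complex.sub_re, Complex.sub_im, Complex.ofReal_re, Complex.ofReal_im]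
  congr 1
  ring

theorem ixi_im (hral : RalStmt) {z : ℂ} (hz : 0 < z.im) :
    (rs (0 : Tor d M → ℝ) z 0 0).im =
      z.im * pm (fun p : Tor d M => ((es p - z.re) ^ 2 + z.im ^ 2)⁻¹) := by
  obtain ⟨-, -, -, -, -, -, -, -, -, -, h11, -⟩ := hral d M 0 z hz
  rw [h11]
  have h1 : (M : ℂ) ^ d = (((M : ℝ) ^ d : ℝ) : ℂ) := by push_cast; rfl
  rw [h1, Complex.div_ofReal_im, Complex.im_sum]
  unfold pm
  rw [← mul_div_assoc, Finset.mul_sum]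
  congr 1
  refine Finset.sum_congr rfl fun p _ => ?_
  rw [sub_zero, ixi_ec0, one_div, ixi_inv_im]

theorem ixi_kf (hral : RalStmt) {z : ℂ} (hz : 0 < z.im) :
    kf z (0 : Tor d M) = pm (fun p : Tor d M => ((es p - z.re) ^ 2 + z.im ^ 2)⁻¹) := by
  obtain ⟨-, -, -, -, h5, -⟩ := hral d M 0 z hz
  have h1 : kf z (0 : Tor d M) = ∑ y, ‖rs (0 : Tor d M → ℝ) z 0 y‖ ^ 2 := by
    unfold kf
    refine Finset.sum_congr rfl fun x _ => ?_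
    rw [QF.H49.ec_zero, Complex.one_re, mul_one]
    rfl
  rw [h1, h5 0, ixi_im hral hz]
  field_simp

/-- the pointwise bound -/
theorem ixi_pt (α β w : ℝ) (hw : 0 < w) :
    (α * β - w ^ 2) * ((α ^ 2 + w ^ 2)⁻¹ * (β ^ 2 + w ^ 2)⁻¹) ≤
      -(1 / 5) * ((α ^ 2 + w ^ 2)⁻¹ + (β ^ 2 + w ^ 2)⁻¹) +
        43 / 50 * ((α ^ 2 + (2 * w) ^ 2)⁻¹ + (β ^ 2 + (2 * w) ^ 2)⁻¹) := by
  obtain ⟨x, hx⟩ : ∃ x, x = α / w := ⟨_, rfl⟩
  obtain ⟨y, hy⟩ : ∃ y, y = -β / w := ⟨_, rfl⟩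
  have hα : α = w * x := by rw [hx]; field_simp
  have hβ : β = -(w * y) := by rw [hy]; field_simp
  have hp := H93.poi x y
  have hx1 : 0 < 1 + x ^ 2 := by positivity
  have hy1 : 0 < 1 + y ^ 2 := by positivity
  have hx4 : 0 < 4 + x ^ 2 := by positivity
  have hy4 : 0 < 4 + y ^ 2 := by positivity
  have h1 : (α ^ 2 + w ^ 2)⁻¹ = (w ^ 2)⁻¹ * (1 + x ^ 2)⁻¹ := by
    rw [hα, ← mul_inv]; congr 1; ring
  have h2 : (β ^ 2 + w ^ 2)⁻¹ = (w ^ 2)⁻¹ * (1 + y ^ 2)⁻¹ := by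
    rw [hβ, ← mul_inv]; congr 1; ring
  have h3 : (α ^ 2 + (2 * w) ^ 2)⁻¹ = (w ^ 2)⁻¹ * (4 + x ^ 2)⁻¹ := by
    rw [hα, ← mul_inv]; congr 1; ring
  have h4 : (β ^ 2 + (2 * w) ^ 2)⁻¹ = (w ^ 2)⁻¹ * (4 + y ^ 2)⁻¹ := by
    rw [hβ, ← mul_inv]; congr 1; ring
  rw [h1, h2, h3, h4]
  have h5 : (α * β - w ^ 2) * ((w ^ 2)⁻¹ * (1 + x ^ 2)⁻¹ * ((w ^ 2)⁻¹ * (1 + y ^ 2)⁻¹)) =
      (w ^ 2)⁻¹ * (-(x * y + 1) * ((1 + x ^ 2)⁻¹ * (1 + y ^ 2)⁻¹)) := by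
    rw [hα, hβ]
    field_simp
    ring
  have h6 : -(1 / 5) * ((w ^ 2)⁻¹ * (1 + x ^ 2)⁻¹ + (w ^ 2)⁻¹ * (1 + y ^ 2)⁻¹) +
      43 / 50 * ((w ^ 2)⁻¹ * (4 + x ^ 2)⁻¹ + (w ^ 2)⁻¹ * (4 + y ^ 2)⁻¹) =
      (w ^ 2)⁻¹ * (-(1 / 5) * ((1 + x ^ 2)⁻¹ + (1 + y ^ 2)⁻¹) +
        43 / 50 * ((4 + x ^ 2)⁻¹ + (4 + y ^ 2)⁻¹)) := by ring
  rw [h5, h6]
  refine mul_le_mul_of_nonneg_left ?_ (by positivity)
  rw [← sub_nonneg]
  have h7 : -(1 / 5) * ((1 + x ^ 2)⁻¹ + (1 + y ^ 2)⁻¹) +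
        43 / 50 * ((4 + x ^ 2)⁻¹ + (4 + y ^ 2)⁻¹) -
        -(x * y + 1) * ((1 + x ^ 2)⁻¹ * (1 + y ^ 2)⁻¹) =
      (3 / 5 * ((2 + x ^ 2 + y ^ 2) * ((4 + x ^ 2) * (4 + y ^ 2))) +
        43 / 25 * ((1 + x ^ 2) * (1 + y ^ 2) * (8 + x ^ 2 + y ^ 2)) -
        (x - y) ^ 2 * ((4 + x ^ 2) * (4 + y ^ 2))) /
        (2 * ((1 + x ^ 2) * (1 + y ^ 2) * ((4 + x ^ 2) * (4 + y ^ 2)))) := by
    field_simp
    ring
  rw [h7]
  exact div_nonneg (by linarith) (by positivity)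

theorem pm_mono {F H : Tor d M → ℝ} (h : ∀ p, F p ≤ H p) : pm F ≤ pm H := by
  unfold pm
  exact div_le_div_of_nonneg_right (Finset.sum_le_sum fun p _ => h p) (by positivity)

theorem pm_refl (F : Tor d M → ℝ) (p : Tor d M) : pm (fun k => F (p - k)) = pm F := by
  unfold pm
  congr 1
  exact Equiv.sum_comp (Equiv.subLeft p) F

theorem pm_add' (F H : Tor d M → ℝ) : pm (fun k => F k + H k) = pm F + pm H := by
  unfold pm
  rw [Finset.sum_add_distrib, add_div]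

theorem pm_mul' (c : ℝ) (F : Tor d M → ℝ) : pm (fun k => c * F k) = c * pm F := by
  unfold pm
  rw [← Finset.mul_sum, mul_div_assoc]

/-- the real part of the symbol -/
theorem ixi_re (z : ℂ) (hz : 0 < z.im) (p : Tor d M) :
    (bh z p).re ≤ -(2 / 5) * pm (fun k : Tor d M => ((es k - z.re) ^ 2 + z.im ^ 2)⁻¹) +
      43 / 25 * pm (fun k : Tor d M => ((es k - z.re) ^ 2 + (2 * z.im) ^ 2)⁻¹) := by
  have h0 : (bh z p).re = pm fun k : Tor d M =>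
      (((es k : ℂ) - z)⁻¹ * ((es (p - k) : ℂ) - z)⁻¹).re := by
    unfold bh pm
    have h1 : (M : ℂ) ^ d = (((M : ℝ) ^ d : ℝ) : ℂ) := by push_cast; rfl
    rw [h1, Complex.div_ofReal_re, Complex.re_sum]
  rw [h0]
  have hr := pm_refl (fun k : Tor d M => ((es k - z.re) ^ 2 + z.im ^ 2)⁻¹) p
  have hr2 := pm_refl (fun k : Tor d M => ((es k - z.re) ^ 2 + (2 * z.im) ^ 2)⁻¹) p
  have h2 : -(2 / 5) * pm (fun k : Tor d M => ((es k - z.re) ^ 2 + z.im ^ 2)⁻¹) +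
      43 / 25 * pm (fun k : Tor d M => ((es k - z.re) ^ 2 + (2 * z.im) ^ 2)⁻¹) =
      pm (fun k : Tor d M => -(1 / 5) * (((es k - z.re) ^ 2 + z.im ^ 2)⁻¹ +
        ((es (p - k) - z.re) ^ 2 + z.im ^ 2)⁻¹) +
        43 / 50 * (((es k - z.re) ^ 2 + (2 * z.im) ^ 2)⁻¹ +
          ((es (p - k) - z.re) ^ 2 + (2 * z.im) ^ 2)⁻¹)) := by
    rw [pm_add' (fun k : Tor d M => -(1 / 5) * (((es k - z.re) ^ 2 + z.im ^ 2)⁻¹ +
        ((es (p - k) - z.re) ^ 2 + z.im ^ 2)⁻¹)) (fun k : Tor d M =>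
        43 / 50 * (((es k - z.re) ^ 2 + (2 * z.im) ^ 2)⁻¹ +
          ((es (p - k) - z.re) ^ 2 + (2 * z.im) ^ 2)⁻¹)), pm_mul', pm_mul',
      pm_add' (fun k : Tor d M => ((es k - z.re) ^ 2 + z.im ^ 2)⁻¹)
        (fun k : Tor d M => ((es (p - k) - z.re) ^ 2 + z.im ^ 2)⁻¹),
      pm_add' (fun k : Tor d M => ((es k - z.re) ^ 2 + (2 * z.im) ^ 2)⁻¹)
        (fun k : Tor d M => ((es (p - k) - z.re) ^ 2 + (2 * z.im) ^ 2)⁻¹), hr, hr2]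
    ring
  rw [h2]
  refine pm_mono fun k => ?_
  refine le_trans (le_of_eq ?_) (ixi_pt (es k - z.re) (es (p - k) - z.re) z.im hz)
  rw [Complex.mul_re, ixi_inv_im, ixi_inv_im, Complex.inv_re, Complex.inv_re,
    Complex.normSq_apply, Complex.normSq_apply]
  simp only [Complex.sub_re, Complex.sub_im, Complex.ofReal_re, Complex.ofReal_im, zero_sub,
    div_eq_mul_inv]
  have e1 : (es k - z.re) * (es k - z.re) + -z.im * -z.im = (es k - z.re) ^ 2 + z.im ^ 2 := by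
    ring
  have e2 : (es (p - k) - z.re) * (es (p - k) - z.re) + -z.im * -z.im =
      (es (p - k) - z.re) ^ 2 + z.im ^ 2 := by ring
  rw [e1, e2]
  ring

/-- the norm of the symbol -/
theorem ixi_norm (z : ℂ) (p : Tor d M) :
    ‖bh z p‖ ≤ pm (fun k : Tor d M => ((es k - z.re) ^ 2 + z.im ^ 2)⁻¹) := by
  have hr := pm_refl (fun k : Tor d M => ((es k - z.re) ^ 2 + z.im ^ 2)⁻¹) p
  have h2 : pm (fun k : Tor d M => ((es k - z.re) ^ 2 + z.im ^ 2)⁻¹) =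
      pm (fun k : Tor d M => 1 / 2 * (((es k - z.re) ^ 2 + z.im ^ 2)⁻¹ +
        ((es (p - k) - z.re) ^ 2 + z.im ^ 2)⁻¹)) := by
    rw [pm_mul', pm_add' (fun k : Tor d M => ((es k - z.re) ^ 2 + z.im ^ 2)⁻¹)
        (fun k : Tor d M => ((es (p - k) - z.re) ^ 2 + z.im ^ 2)⁻¹), hr]
    ring
  rw [h2]
  have h3 : ‖bh z p‖ ≤ pm (fun k : Tor d M =>
      ‖((es k : ℂ) - z)⁻¹ * ((es (p - k) : ℂ) - z)⁻¹‖) := by
    unfold bh pm
    rw [norm_div, norm_pow, Complex.norm_natCast]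
    exact div_le_div_of_nonneg_right (norm_sum_le _ _) (by positivity)
  refine h3.trans (pm_mono fun k => ?_)
  rw [norm_mul, ← ixi_inv_norm, ← ixi_inv_norm]
  nlinarith [sq_nonneg (‖((es k : ℂ) - z)⁻¹‖ - ‖((es (p - k) : ℂ) - z)⁻¹‖)]

theorem ixi (hral : RalStmt) (hftb : FtbStmt) : IxiStmt := by
  intro d M _ ζ τ hζ hτ h1 h2
  obtain ⟨Y, hY⟩ : ∃ Y : Matrix (Tor d M) (Tor d M) ℂ,
    Y = (τ : ℂ) • BB (rs (0 : Tor d M → ℝ) ζ) := ⟨_, rfl⟩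
  obtain ⟨-, -, -, -, -, h6, -⟩ := hftb d M
  have h2ζ : 0 < (⟨ζ.re, 2 * ζ.im⟩ : ℂ).im := by
    show 0 < 2 * ζ.im
    linarith
  rw [ixi_kf hral hζ] at h1
  rw [ixi_im hral h2ζ] at h2
  obtain ⟨K, hK⟩ : ∃ K, K = pm (fun k : Tor d M => ((es k - ζ.re) ^ 2 + ζ.im ^ 2)⁻¹) := ⟨_, rfl⟩
  obtain ⟨K2, hK2⟩ : ∃ K2, K2 = pm (fun k : Tor d M =>
    ((es k - ζ.re) ^ 2 + (2 * ζ.im) ^ 2)⁻¹) := ⟨_, rfl⟩
  have h2' : τ * (2 * ζ.im * K2) ≤ 101 / 100 * ζ.im := by rw [hK2]; exact h2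
  have h3 : τ * K2 ≤ 101 / 200 := by
    have : ζ.im * (τ * K2) ≤ ζ.im * (101 / 200) := by linarith
    exact le_of_mul_le_mul_left this hζ
  have h1' : τ * K = 1 := by rw [hK]; exact h1
  -- the symbol
  have hsy : ∀ p : Tor d M, ‖(τ : ℂ) * bh ζ p‖ ^ 2 ≤ 118 / 125 * ‖1 - (τ : ℂ) * bh ζ p‖ ^ 2 := by
    intro p
    have a1 : ‖(τ : ℂ) * bh ζ p‖ ≤ 1 := by
      rw [norm_mul, Complex.norm_real, Real.norm_eq_abs, abs_of_pos hτ, ← h1', hK]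
      exact mul_le_mul_of_nonneg_left (ixi_norm ζ p) hτ.le
    have a2 : ((τ : ℂ) * bh ζ p).re ≤ 47 / 100 := by
      rw [Complex.re_ofReal_mul]
      have b1 := mul_le_mul_of_nonneg_left (ixi_re ζ hζ p) hτ.le
      rw [← hK, ← hK2] at b1
      have b2 : τ * (-(2 / 5) * K + 43 / 25 * K2) = -(2 / 5) * (τ * K) + 43 / 25 * (τ * K2) := by
        ring
      rw [b2, h1'] at b1
      linarith
    obtain ⟨y, hy⟩ : ∃ y, y = (τ : ℂ) * bh ζ p := ⟨_, rfl⟩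
    rw [← hy] at a1 a2 ⊢
    have a3 : ‖1 - y‖ ^ 2 = 1 - 2 * y.re + ‖y‖ ^ 2 := by
      rw [← Complex.normSq_eq_norm_sq, ← Complex.normSq_eq_norm_sq, Complex.normSq_apply,
        Complex.normSq_apply]
      simp only [Complex.sub_re, Complex.sub_im, Complex.one_re, Complex.one_im]
      ring
    have a4 : ‖y‖ ^ 2 ≤ 1 := pow_le_one₀ (norm_nonneg _) a1
    rw [a3]
    linarith
  have hft : ∀ (v : Tor d M → ℂ) (p : Tor d M), ft (Y *ᵥ v) p = (τ : ℂ) * bh ζ p * ft v p := by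
    intro v p
    have b1 : ft (Y *ᵥ v) p = (τ : ℂ) * ft (BB (rs (0 : Tor d M → ℝ) ζ) *ᵥ v) p := by
      rw [hY, Matrix.smul_mulVec]
      unfold ft
      rw [Finset.mul_sum]
      refine Finset.sum_congr rfl fun x _ => ?_
      rw [Pi.smul_apply, smul_eq_mul]
      ring
    rw [b1, QF.H49.ft_BB hral hftb hζ, mul_assoc]
  have hft1 : ∀ (v : Tor d M → ℂ) (p : Tor d M),
      ft ((1 - Y) *ᵥ v) p = (1 - (τ : ℂ) * bh ζ p) * ft v p := by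
    intro v p
    have b1 : ft ((1 - Y) *ᵥ v) p = ft v p - ft (Y *ᵥ v) p := by
      rw [Matrix.sub_mulVec, Matrix.one_mulVec]
      unfold ft
      rw [← Finset.sum_sub_distrib]
      refine Finset.sum_congr rfl fun x _ => ?_
      rw [Pi.sub_apply, mul_sub]
    rw [b1, hft]
    ring
  have key : ∀ v : Tor d M → ℂ, n2 (Y *ᵥ v) ≤ 118 / 125 * n2 ((1 - Y) *ᵥ v) := by
    intro v
    unfold n2
    rw [h6, h6, ← pm_mul']
    refine pm_mono fun p => ?_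
    rw [hft, hft1, norm_mul ((τ : ℂ) * bh ζ p), norm_mul (1 - (τ : ℂ) * bh ζ p), mul_pow,
      mul_pow (‖1 - (τ : ℂ) * bh ζ p‖), ← mul_assoc]
    exact mul_le_mul_of_nonneg_right (hsy p) (by positivity)
  rw [← hY]
  have hunit : IsUnit (1 - Y).det := by
    rw [isUnit_iff_ne_zero]
    intro h0
    obtain ⟨v, hv, hv0⟩ := Matrix.exists_mulVec_eq_zero_iff.2 h0
    have c1 := key v
    rw [hv0] at c1
    have c2 : n2 (0 : Tor d M → ℂ) = 0 := by simp [n2]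
    rw [c2, mul_zero] at c1
    have c3 : Y *ᵥ v = 0 := by
      funext x
      have c4 : ‖(Y *ᵥ v) x‖ ^ 2 ≤ n2 (Y *ᵥ v) :=
        Finset.single_le_sum (f := fun x => ‖(Y *ᵥ v) x‖ ^ 2) (fun _ _ => by positivity)
          (Finset.mem_univ x)
      have c5 : ‖(Y *ᵥ v) x‖ ^ 2 = 0 := le_antisymm (c4.trans c1) (by positivity)
      exact norm_eq_zero.1 (pow_eq_zero_iff (two_ne_zero) |>.1 c5)
    rw [Matrix.sub_mulVec, Matrix.one_mulVec, c3, sub_zero] at hv0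
    exact hv hv0
  refine ⟨hunit, fun u => ?_⟩
  have c1 := key ((1 - Y)⁻¹ *ᵥ u)
  have c2 : (1 - Y) *ᵥ ((1 - Y)⁻¹ *ᵥ u) = u := by
    rw [Matrix.mulVec_mulVec, Matrix.mul_nonsing_inv _ hunit, Matrix.one_mulVec]
  have c3 : ((1 - Y)⁻¹ - 1) *ᵥ u = Y *ᵥ ((1 - Y)⁻¹ *ᵥ u) := by
    have c4 := c2
    rw [Matrix.sub_mulVec (1 : Matrix (Tor d M) (Tor d M) ℂ) Y, Matrix.one_mulVec] at c4
    rw [Matrix.sub_mulVec, Matrix.one_mulVec]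
    nth_rewrite 2 [← c4]
    abel
  rw [c3]
  rw [c2] at c1
  exact c1

end Pool.Agent.LE.QZ.H38
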